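import Pool.Agent.helper52.ED.Spec

/-!
# Project ed: module KLO (the derivative of the orbit and the tube)
-/

set_option autoImplicit false

open Complex Metric Set Filter Topology MeasureTheory
open Pool.Agent.helper98.ILF Pool.Agent.helper16.Multibrot HY

noncomputable section

namespace ED

/-- a holomorphic inverse of an injective holomorphic function on the disc. -/
theorem KLO_inv (hKO0 : V3.KO0_stmt) {F : ℂ → ℂ} (hF : DifferentiableOn ℂ F UD)
    (hinj : InjOn F UD) :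
    ∃ g : ℂ → ℂ, (∀ x ∈ UD, g (F x) = x) ∧ (∀ x ∈ UD, DifferentiableAt ℂ g (F x)) := by
  have hne0 : UD.Nonempty := ⟨0, by simp [UD]⟩
  have hop : IsOpen UD := isOpen_ball
  have hg : ∀ x ∈ UD, Function.invFunOn F UD (F x) = x := fun x hx =>
    Function.invFunOn_apply_eq (f := F) hx |> fun h =>
      hinj (Function.invFunOn_apply_mem (f := F) hx) hx h
  refine ⟨Function.invFunOn F UD, hg, ?_⟩
  intro x hx
  set g := Function.invFunOn F UD with hgdef
  have han : AnalyticAt ℂ F x := hF.analyticAt (hop.mem_nhds hx)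
  have hne : deriv F x ≠ 0 := hKO0 F UD hop hF hinj _ hx
  have hst : HasStrictDerivAt F (deriv F x) x := han.hasStrictDerivAt
  have hmap : Filter.map F (𝓝 x) = 𝓝 (F x) := hst.map_nhds_eq hne
  have hgx : g (F x) = x := hg x hx
  have hcont : ContinuousAt g (F x) := by
    have e1 : Tendsto (g ∘ F) (𝓝 x) (𝓝 x) := by
      refine Tendsto.congr' ?_ tendsto_id
      have e2 : ∀ᶠ y in 𝓝 x, y ∈ UD := hop.mem_nhds hx
      filter_upwards [e2] with y hy
      exact (hg y hy).symm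
    have e4 : Tendsto g (Filter.map F (𝓝 x)) (𝓝 x) := by
      rw [tendsto_map'_iff]
      exact e1
    rw [hmap] at e4
    unfold ContinuousAt
    rw [hgx]
    exact e4
  have hst' : HasDerivAt F (deriv F x) (g (F x)) := by
    rw [hgx]; exact hst.hasDerivAt
  refine (HasDerivAt.of_local_left_inverse hcont hst' hne ?_).differentiableAt
  have e5 : ∀ᶠ y in Filter.map F (𝓝 x), F (g y) = y := by
    rw [Filter.eventually_map]
    filter_upwards [hop.mem_nhds hx] with y hy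
    rw [hg y hy]
  rw [hmap] at e5
  exact e5

theorem KLO_fzd (n : ℕ) (c : ℂ) (k : ℕ) : Differentiable ℂ ((fz n c)^[k]) := by
  induction k with
  | zero => simpa using differentiable_id
  | succ k ih =>
    rw [Function.iterate_succ']
    refine Differentiable.comp ?_ ih
    unfold fz
    fun_prop

theorem KLO_orb {n : ℕ} {c : ℂ} {φ : ℂ → ℂ} {M : ℕ} {y : ℕ → ℂ} {t : ℕ} (h : Orb n c φ M y t) :
    ∀ d i, i + d ≤ t → (fz n c)^[d] (φ (y i)) = φ (y (i + d)) := by
  intro d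
  induction d with
  | zero => intro i _; simp
  | succ d ih =>
    intro i hi
    rw [Function.iterate_succ_apply', ih i (by omega), ← h.stp (i + d) (by omega)]
    rfl

theorem KLO (hPC2 : PC2_stmt) (hSPK : SPK_stmt) (hKO0 : V3.KO0_stmt) : KLO_stmt := by
  obtain ⟨C, p, hC, hp, hPC⟩ := hPC2
  obtain ⟨hS1, -, -, -, -, hS6⟩ := hSPK
  refine ⟨C, p, hC, hp, ?_⟩
  intro n c V φ ψ b M y t hSG hM hO i hit W w a hW hWV hfW ha hwa
  have h0 : (0 : ℂ) ∈ UD := by simp [UD]
  have hop : IsOpen UD := isOpen_ball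
  obtain ⟨g, hg1, hg2⟩ := KLO_inv hKO0 hSG.rm.dif hSG.rm.inj
  have hyi : y i ∈ UD := hO.mem i hit.le
  have hyt : y t ∈ UD := hO.mem t le_rfl
  have hwV : ∀ x ∈ UD, ∃ u ∈ UD, φ u = w x := by
    intro x hx
    have h1 : w x ∈ V := hWV (by rw [← hW.img]; exact mem_image_of_mem _ hx)
    rw [← hSG.rm.img] at h1
    exact h1
  have hfV : ∀ x ∈ UD, ∃ u ∈ UD, φ u = (fz n c)^[t - i] (w x) := by
    intro x hx
    have h1 : (fz n c)^[t - i] (w x) ∈ V := hfW _ (by rw [← hW.img]; exact mem_image_of_mem _ hx)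
    rw [← hSG.rm.img] at h1
    exact h1
  -- the inclusion
  set j : ℂ → ℂ := fun x => g (w x) with hj
  have hφj : ∀ x ∈ UD, φ (j x) = w x := by
    intro x hx
    obtain ⟨u, hu, hux⟩ := hwV x hx
    rw [hj]
    simp only
    rw [← hux, hg1 u hu]
  have hjm : MapsTo j UD UD := by
    intro x hx
    obtain ⟨u, hu, hux⟩ := hwV x hx
    rw [hj]
    simp only
    rw [← hux, hg1 u hu]
    exact hu
  have hjd : DifferentiableOn ℂ j UD := by
    intro x hx
    obtain ⟨u, hu, hux⟩ := hwV x hx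
    have h1 : DifferentiableAt ℂ g (w x) := by rw [← hux]; exact hg2 u hu
    have h2 : DifferentiableAt ℂ w x := (hW.dif x hx).differentiableAt (hop.mem_nhds hx)
    exact (DifferentiableAt.comp x h1 h2).differentiableWithinAt
  have hji : InjOn j UD := by
    intro x hx x' hx' hxx
    apply hW.inj hx hx'
    rw [← hφj x hx, ← hφj x' hx', hxx]
  have hj0 : j 0 = 0 := by
    apply hSG.rm.inj (hjm h0) h0
    rw [hφj 0 h0, hW.val, hSG.rm.val]
  have hja : j a = y i := by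
    apply hSG.rm.inj (hjm ha) hyi
    rw [hφj a ha, hwa]
  -- the map
  set q : ℂ → ℂ := fun x => g ((fz n c)^[t - i] (w x)) with hq
  have hφq : ∀ x ∈ UD, φ (q x) = (fz n c)^[t - i] (w x) := by
    intro x hx
    obtain ⟨u, hu, hux⟩ := hfV x hx
    rw [hq]
    simp only
    rw [← hux, hg1 u hu]
  have hqm : MapsTo q UD UD := by
    intro x hx
    obtain ⟨u, hu, hux⟩ := hfV x hx
    rw [hq]
    simp only
    rw [← hux, hg1 u hu]
    exact hu
  have hqd : DifferentiableOn ℂ q UD := by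
    intro x hx
    obtain ⟨u, hu, hux⟩ := hfV x hx
    have h1 : DifferentiableAt ℂ g ((fz n c)^[t - i] (w x)) := by rw [← hux]; exact hg2 u hu
    have h2 : DifferentiableAt ℂ w x := (hW.dif x hx).differentiableAt (hop.mem_nhds hx)
    have h3 : DifferentiableAt ℂ (fun x => (fz n c)^[t - i] (w x)) x :=
      DifferentiableAt.comp x (KLO_fzd n c (t - i) _) h2
    exact (DifferentiableAt.comp x h1 h3).differentiableWithinAt
  have hqa : q a = y t := by
    apply hSG.rm.inj (hqm ha) hyt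
    rw [hφq a ha, hwa, KLO_orb hO (t - i) i (by omega)]
    congr 2
    omega
  -- derivatives
  have hjda : DifferentiableAt ℂ j a := (hjd a ha).differentiableAt (hop.mem_nhds ha)
  have hqda : DifferentiableAt ℂ q a := (hqd a ha).differentiableAt (hop.mem_nhds ha)
  have hwda : DifferentiableAt ℂ w a := (hW.dif a ha).differentiableAt (hop.mem_nhds ha)
  have hφdi : DifferentiableAt ℂ φ (y i) := (hSG.rm.dif _ hyi).differentiableAt (hop.mem_nhds hyi)
  have hφdt : DifferentiableAt ℂ φ (y t) := (hSG.rm.dif _ hyt).differentiableAt (hop.mem_nhds hyt)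
  have hφ'i : deriv φ (y i) ≠ 0 := hKO0 φ UD hop hSG.rm.dif hSG.rm.inj _ hyi
  have hφ't : deriv φ (y t) ≠ 0 := hKO0 φ UD hop hSG.rm.dif hSG.rm.inj _ hyt
  have hdj : deriv w a = deriv φ (y i) * deriv j a := by
    have h1 : w =ᶠ[𝓝 a] fun x => φ (j x) := by
      filter_upwards [hop.mem_nhds ha] with x hx
      exact (hφj x hx).symm
    rw [h1.deriv_eq]
    have h2 := deriv_comp (h₂ := φ) a (by rw [hja]; exact hφdi) hjda
    rw [← hja]
    exact h2
  have hdq : deriv φ (y t) * deriv q a = deriv ((fz n c)^[t - i]) (φ (y i)) * deriv w a := by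
    have h1 : (fun x => φ (q x)) =ᶠ[𝓝 a] fun x => (fz n c)^[t - i] (w x) := by
      filter_upwards [hop.mem_nhds ha] with x hx
      exact hφq x hx
    have h2 := deriv_comp (h₂ := φ) a (by rw [hqa]; exact hφdt) hqda
    have h3 := deriv_comp (h₂ := (fz n c)^[t - i]) a (KLO_fzd n c (t - i) _) hwda
    have h4 : deriv (φ ∘ q) a = deriv ((fz n c)^[t - i] ∘ w) a := h1.deriv_eq
    rw [h2, h3, hqa, hwa] at h4
    exact h4
  have hchain : deriv ((fz n c)^[t]) (φ (y 0)) =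
      deriv ((fz n c)^[t - i]) (φ (y i)) * deriv ((fz n c)^[i]) (φ (y 0)) := by
    have h1 : (fz n c)^[t] = (fz n c)^[t - i] ∘ (fz n c)^[i] := by
      rw [← Function.iterate_add]
      congr 1
      omega
    rw [h1, deriv_comp _ (KLO_fzd n c (t - i) _) (KLO_fzd n c i _)]
    have h2 := KLO_orb hO i 0 (by omega)
    rw [zero_add] at h2
    rw [h2]
  -- norms
  have hna : ‖a‖ < 1 := by simpa [UD] using ha
  have hni : ‖y i‖ < 1 := by simpa [UD] using hyi
  have hnt : ‖y t‖ < 1 := by simpa [UD] using hyt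
  have hA : 0 < 1 - ‖a‖ ^ 2 := by nlinarith [norm_nonneg a]
  have hI : 0 < 1 - ‖y i‖ ^ 2 := by nlinarith [norm_nonneg (y i)]
  have hT : 0 < 1 - ‖y t‖ ^ 2 := by nlinarith [norm_nonneg (y t)]
  have hSPq : ‖deriv q a‖ * (1 - ‖a‖ ^ 2) ≤ 1 - ‖y t‖ ^ 2 := by
    have h1 := hS6 q hqd hqm a ha
    unfold hd at h1
    rw [hqa, div_le_div_iff₀ hT hA, one_mul] at h1
    exact h1
  have hφi0 : 0 < ‖deriv φ (y i)‖ := norm_pos_iff.2 hφ'i
  have hφt0 : 0 < ‖deriv φ (y t)‖ := norm_pos_iff.2 hφ't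
  set D := ‖deriv ((fz n c)^[i]) (φ (y 0))‖ with hD
  set L := ‖deriv ((fz n c)^[t - i]) (φ (y i))‖ with hL
  have hD0 : 0 ≤ D := norm_nonneg _
  have hPi : PhV n c φ y i = D / (‖deriv φ (y i)‖ * (1 - ‖y i‖ ^ 2)) := rfl
  have hPt : PhV n c φ y t = L * D / (‖deriv φ (y t)‖ * (1 - ‖y t‖ ^ 2)) := by
    unfold PhV
    rw [hchain, norm_mul]
  have hPt0 : 0 ≤ PhV n c φ y t := by
    rw [hPt]; positivity
  have hrel : ‖deriv φ (y t)‖ * ‖deriv q a‖ = L * (‖deriv φ (y i)‖ * ‖deriv j a‖) := by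
    have h1 := congrArg norm hdq
    rw [norm_mul, norm_mul, hdj, norm_mul] at h1
    exact h1
  have hκ : PhV n c φ y t * (hd j a * (1 - ‖a‖ ^ 2)) ≤ PhV n c φ y i := by
    unfold hd
    rw [hja, hPi, hPt]
    have e1 : L * D / (‖deriv φ (y t)‖ * (1 - ‖y t‖ ^ 2)) * (‖deriv j a‖ / (1 - ‖y i‖ ^ 2) * (1 - ‖a‖ ^ 2)) =
        (D / (‖deriv φ (y i)‖ * (1 - ‖y i‖ ^ 2))) *
          ((L * (‖deriv φ (y i)‖ * ‖deriv j a‖)) * (1 - ‖a‖ ^ 2) / (‖deriv φ (y t)‖ * (1 - ‖y t‖ ^ 2))) := by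
      field_simp
    rw [e1, ← hrel]
    have e2 : (‖deriv φ (y t)‖ * ‖deriv q a‖) * (1 - ‖a‖ ^ 2) / (‖deriv φ (y t)‖ * (1 - ‖y t‖ ^ 2)) ≤ 1 := by
      rw [div_le_one (by positivity)]
      nlinarith
    have e3 : 0 ≤ D / (‖deriv φ (y i)‖ * (1 - ‖y i‖ ^ 2)) := by positivity
    exact mul_le_of_le_one_right e3 e2
  constructor
  · have h1 : T (j a) 0 = - y i := by
      rw [hja]; unfold T; simp
    have h2 : T a 0 = - a := by unfold T; simp
    have h3 : 1 / 2 ≤ ‖T (j a) (j 0)‖ := by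
      rw [hj0, h1, norm_neg]
      have h4 := hO.far i hit
      have h5 : (1 / 2 : ℝ) ^ M ≤ (1 / 2 : ℝ) ^ 1 := pow_le_pow_of_le_one (by norm_num) (by norm_num) hM
      rw [pow_one] at h5
      linarith
    have h4 := hPC j ⟨hjd, hji, hjm⟩ a ha 0 h0 h3
    rw [hj0, h1, h2, norm_neg, norm_neg] at h4
    calc (1 - ‖a‖) ^ p * PhV n c φ y t ≤ (C * (hd j a * (1 - ‖a‖ ^ 2)) * (1 - ‖y i‖) ^ p) * PhV n c φ y t :=
          mul_le_mul_of_nonneg_right h4 hPt0
      _ = C * (1 - ‖y i‖) ^ p * (PhV n c φ y t * (hd j a * (1 - ‖a‖ ^ 2))) := by ring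
      _ ≤ C * (1 - ‖y i‖) ^ p * PhV n c φ y i := by
          apply mul_le_mul_of_nonneg_left hκ
          have : 0 ≤ 1 - ‖y i‖ := by linarith
          positivity
  · have h1 := hS1 j hjd hjm 0 h0 a ha
    rw [hj0, hja] at h1
    have h2 : ∀ z : ℂ, T 0 z = z := by intro z; unfold T; simp
    rw [h2, h2] at h1
    exact h1

end ED
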